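import Pool.Agent.H34R3.OrbGroup

set_option autoImplicit false

/-!
Existence of a trilinear form all of whose isotropic subspaces are small, by counting.
-/

namespace Pool.Agent.H34R3.Orb

open Module Grp

variable {p : ℕ} [Fact p.Prime] {d : ℕ}

/-- trilinear forms on `(ZMod p)^d` -/
abbrev Tri (p d : ℕ) : Type :=
  (Fin d → ZMod p) →ₗ[ZMod p] (Fin d → ZMod p) →ₗ[ZMod p] (Fin d → ZMod p) →ₗ[ZMod p] ZMod p

/-- evaluation of the commutator form on a family of vectors indexed by `Fin 3 × Fin r` -/
def Phi {r : ℕ} (a : Fin 3 × Fin r → (Fin d → ZMod p)) :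
    Tri p d →ₗ[ZMod p] (Fin r → Fin r → Fin r → ZMod p) where
  toFun L := fun i j k => T L (a (0, i)) (a (1, j)) (a (2, k))
  map_add' L L' := by
    funext i j k
    simp [T]
    ring
  map_smul' c L := by
    funext i j k
    simp [T]
    ring

/-- rank one trilinear forms -/
def tens (f g h : (Fin d → ZMod p) →ₗ[ZMod p] ZMod p) : Tri p d :=
  LinearMap.mk₂ (ZMod p) (fun x y => (f x * g y) • h)
    (by intro x x' y; rw [map_add, add_mul, add_smul])
    (by intro c x y; rw [map_smul, smul_eq_mul, mul_assoc, mul_smul])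
    (by intro x y y'; rw [map_add, mul_add, add_smul])
    (by intro c x y; rw [map_smul, smul_eq_mul, mul_left_comm, mul_smul])

@[simp] theorem tens_apply (f g h : (Fin d → ZMod p) →ₗ[ZMod p] ZMod p) (x y z : Fin d → ZMod p) :
    tens f g h x y z = f x * g y * h z := by
  simp [tens]

theorem exists_dual {ι : Type} [DecidableEq ι] (a : ι → (Fin d → ZMod p))
    (ha : LinearIndependent (ZMod p) a) :
    ∃ f : ι → ((Fin d → ZMod p) →ₗ[ZMod p] ZMod p), ∀ i j, f i (a j) = if i = j then 1 else 0 := by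
  have h : ∀ i, ∃ f : (Fin d → ZMod p) →ₗ[ZMod p] ZMod p, ∀ j, f (a j) = if i = j then 1 else 0 := by
    intro i
    obtain ⟨g, hg⟩ := LinearMap.exists_extend ((Basis.span ha).coord i)
    refine ⟨g, fun j => ?_⟩
    have h1 : g (a j) = (Basis.span ha).coord i ⟨a j, Submodule.subset_span ⟨j, rfl⟩⟩ := by
      rw [← hg]; rfl
    have h2 : (⟨a j, Submodule.subset_span ⟨j, rfl⟩⟩ : Submodule.span (ZMod p) (Set.range a)) =
        Basis.span ha j := by
      apply Subtype.ext
      rw [Basis.span_apply]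
    rw [h1, h2, Basis.coord_apply, Basis.repr_self, Finsupp.single_apply]
    simp only [eq_comm]
  choose f hf using h
  exact ⟨f, hf⟩

theorem Phi_surj {r : ℕ} (a : Fin 3 × Fin r → (Fin d → ZMod p))
    (ha : LinearIndependent (ZMod p) a) : Function.Surjective (Phi a) := by
  classical
  intro t
  obtain ⟨f, hf⟩ := exists_dual a ha
  refine ⟨∑ i, ∑ j, ∑ k, t i j k • tens (f (0, i)) (f (1, j)) (f (2, k)), ?_⟩
  rw [map_sum]
  simp_rw [map_sum, map_smul]
  have h1 : ∀ i j k, Phi a (tens (f (0, i)) (f (1, j)) (f (2, k))) =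
      fun i' j' k' => if i = i' ∧ j = j' ∧ k = k' then (1 : ZMod p) else 0 := by
    intro i j k
    funext i' j' k'
    simp only [Phi, LinearMap.coe_mk, AddHom.coe_mk, T, tens_apply, hf]
    by_cases h1 : i = i' <;> by_cases h2 : j = j' <;> by_cases h3 : k = k' <;> simp [h1, h2, h3]
  simp_rw [h1]
  funext i' j' k'
  simp only [Finset.sum_apply, Pi.smul_apply, smul_eq_mul, mul_ite, mul_one, mul_zero]
  rw [Finset.sum_eq_single i' (by
      intro i _ hi
      apply Finset.sum_eq_zero
      intro j _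
      apply Finset.sum_eq_zero
      intro k _
      rw [if_neg (by tauto)]) (by simp),
    Finset.sum_eq_single j' (by
      intro j _ hi
      apply Finset.sum_eq_zero
      intro k _
      rw [if_neg (by tauto)]) (by simp),
    Finset.sum_eq_single k' (by
      intro k _ hi
      rw [if_neg (by tauto)]) (by simp)]
  simp

instance finDual : Finite ((Fin d → ZMod p) →ₗ[ZMod p] ZMod p) :=
  Finite.of_injective (fun L => (L : (Fin d → ZMod p) → ZMod p)) DFunLike.coe_injective

instance finBi : Finite ((Fin d → ZMod p) →ₗ[ZMod p] (Fin d → ZMod p) →ₗ[ZMod p] ZMod p) :=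
  Finite.of_injective (fun L => (L : (Fin d → ZMod p) → ((Fin d → ZMod p) →ₗ[ZMod p] ZMod p)))
    DFunLike.coe_injective

instance finTri : Finite (Tri p d) :=
  Finite.of_injective (fun L => (L : (Fin d → ZMod p) →
    ((Fin d → ZMod p) →ₗ[ZMod p] (Fin d → ZMod p) →ₗ[ZMod p] ZMod p))) DFunLike.coe_injective

theorem card_ker {r : ℕ} (a : Fin 3 × Fin r → (Fin d → ZMod p))
    (ha : LinearIndependent (ZMod p) a) :
    p ^ (r * (r * r)) * Nat.card {L : Tri p d // Phi a L = 0} ≤ Nat.card (Tri p d) := by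
  choose s hs using Phi_surj a ha
  have h3 : Nat.card (Fin r → Fin r → Fin r → ZMod p) = p ^ (r * (r * r)) := by
    rw [Nat.card_fun, Nat.card_fun, Nat.card_fun, Nat.card_zmod, Nat.card_fin, ← pow_mul,
      ← pow_mul]
  rw [← h3, ← Nat.card_prod]
  apply Nat.card_le_card_of_injective
    (fun x : (Fin r → Fin r → Fin r → ZMod p) × {L : Tri p d // Phi a L = 0} => s x.1 + x.2.1)
  rintro ⟨t, L, hL⟩ ⟨t', L', hL'⟩ h
  simp only at h
  have h1 : t = t' := by
    have := congrArg (Phi a) h
    rwa [map_add, map_add, hs, hs, hL, hL', add_zero, add_zero] at this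
  subst h1
  have h2 : L = L' := by
    refine LinearMap.ext fun x => LinearMap.ext fun y => LinearMap.ext fun z => ?_
    have := congrArg (fun M : Tri p d => M x y z) h
    simpa using this
  subst h2
  rfl

theorem exists_form {r : ℕ} (hr : 3 * d < r * r) (hr0 : 0 < r) :
    ∃ L : Tri p d, ∀ a : Fin 3 × Fin r → (Fin d → ZMod p), LinearIndependent (ZMod p) a →
      ∃ i j k, T L (a (0, i)) (a (1, j)) (a (2, k)) ≠ 0 := by
  classical
  by_contra hcon
  push Not at hcon
  have : Fintype (Tri p d) := Fintype.ofFinite _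
  have hp : 1 < p := (Fact.out : p.Prime).one_lt
  -- every form is in some kernel
  have hsub : (Finset.univ : Finset (Tri p d)) ⊆
      (Finset.univ.filter fun a : Fin 3 × Fin r → (Fin d → ZMod p) =>
        LinearIndependent (ZMod p) a).biUnion
        (fun a => Finset.univ.filter fun L : Tri p d => Phi a L = 0) := by
    intro L _
    obtain ⟨a, ha, h⟩ := hcon L
    rw [Finset.mem_biUnion]
    refine ⟨a, by simp [ha], ?_⟩
    rw [Finset.mem_filter]
    refine ⟨Finset.mem_univ _, ?_⟩
    funext i j k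
    exact h i j k
  have h1 := (Finset.card_le_card hsub).trans Finset.card_biUnion_le
  have h2 : ∀ a ∈ (Finset.univ.filter fun a : Fin 3 × Fin r → (Fin d → ZMod p) =>
        LinearIndependent (ZMod p) a),
      p ^ (r * (r * r)) * (Finset.univ.filter fun L : Tri p d => Phi a L = 0).card
        ≤ Fintype.card (Tri p d) := by
    intro a ha
    rw [Finset.mem_filter] at ha
    have := card_ker a ha.2
    rwa [Nat.card_eq_fintype_card (α := Tri p d), Nat.card_eq_fintype_card,
      Fintype.card_subtype] at this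
  have h3 : p ^ (r * (r * r)) * Fintype.card (Tri p d) ≤
      p ^ (3 * r * d) * Fintype.card (Tri p d) := by
    calc p ^ (r * (r * r)) * Fintype.card (Tri p d)
        ≤ p ^ (r * (r * r)) * ∑ a ∈ (Finset.univ.filter fun a : Fin 3 × Fin r → (Fin d → ZMod p) =>
        LinearIndependent (ZMod p) a),
          (Finset.univ.filter fun L : Tri p d => Phi a L = 0).card :=
          Nat.mul_le_mul_left _ h1
      _ ≤ ∑ a ∈ (Finset.univ.filter fun a : Fin 3 × Fin r → (Fin d → ZMod p) =>
        LinearIndependent (ZMod p) a), Fintype.card (Tri p d) := by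
          rw [Finset.mul_sum]
          exact Finset.sum_le_sum h2
      _ = (Finset.univ.filter fun a : Fin 3 × Fin r → (Fin d → ZMod p) =>
        LinearIndependent (ZMod p) a).card * Fintype.card (Tri p d) := by
          rw [Finset.sum_const, smul_eq_mul]
      _ ≤ Fintype.card (Fin 3 × Fin r → (Fin d → ZMod p)) * Fintype.card (Tri p d) :=
          Nat.mul_le_mul_right _ (Finset.card_filter_le _ _)
      _ = p ^ (3 * r * d) * Fintype.card (Tri p d) := by
          congr 1
          simp only [Fintype.card_fun, Fintype.card_prod, Fintype.card_fin, ZMod.card]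
          rw [← pow_mul]
          ring_nf
  have h4 : 0 < Fintype.card (Tri p d) := Fintype.card_pos
  have h5 := Nat.le_of_mul_le_mul_right h3 h4
  have h6 := (Nat.pow_le_pow_iff_right hp).1 h5
  have h7 : r * (3 * d) < r * (r * r) := Nat.mul_lt_mul_of_pos_left hr hr0
  have h8 : r * (3 * d) = 3 * r * d := by ring
  omega

/-- the image in `V` of a subgroup, as a submodule -/
def img {L : Tri p d} (K : Subgroup (Grp L)) : Submodule (ZMod p) (Fin d → ZMod p) where
  carrier := {v | ∃ k ∈ K, k.v = v}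
  zero_mem' := ⟨1, K.one_mem, rfl⟩
  add_mem' := by
    rintro _ _ ⟨k, hk, rfl⟩ ⟨k', hk', rfl⟩
    exact ⟨k * k', K.mul_mem hk hk', rfl⟩
  smul_mem' := by
    rintro c _ ⟨k, hk, rfl⟩
    refine ⟨k ^ c.val, K.pow_mem hk _, ?_⟩
    have h1 : ∀ n : ℕ, (k ^ n).v = n • k.v := by
      intro n
      induction n with
      | zero => simp
      | succ n ih => rw [pow_succ, mul_v, ih, succ_nsmul]
    rw [h1]
    have h2 : ((c.val : ZMod p)) • k.v = c • k.v := by
      rw [ZMod.natCast_zmod_val]
    rw [← h2, Nat.cast_smul_eq_nsmul]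

theorem img_small {r : ℕ} {L : Tri p d}
    (hL : ∀ a : Fin 3 × Fin r → (Fin d → ZMod p), LinearIndependent (ZMod p) a →
      ∃ i j k, T L (a (0, i)) (a (1, j)) (a (2, k)) ≠ 0)
    (K : Subgroup (Grp L)) (hK : zc L 1 ∉ K) : finrank (ZMod p) (img K) < 3 * r := by
  by_contra hcon
  push Not at hcon
  -- a linearly independent family inside the image
  obtain ⟨f, hf⟩ := exists_linearIndependent_of_le_finrank hcon
  let e : Fin 3 × Fin r ≃ Fin (3 * r) := finProdFinEquiv
  let a : Fin 3 × Fin r → (Fin d → ZMod p) := fun x => (f (e x) : Fin d → ZMod p)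
  have ha : LinearIndependent (ZMod p) a := by
    have h1 : LinearIndependent (ZMod p) (fun x => (img K).subtype (f x)) :=
      hf.map' (img K).subtype (Submodule.ker_subtype _)
    exact h1.comp e e.injective
  obtain ⟨i, j, k, h⟩ := hL a ha
  obtain ⟨x, hx, hx'⟩ := (f (e (0, i))).2
  obtain ⟨y, hy, hy'⟩ := (f (e (1, j))).2
  obtain ⟨z, hz, hz'⟩ := (f (e (2, k))).2
  have h2 : cmt (cmt x y) z ∈ K := by
    unfold cmt
    exact K.mul_mem (K.mul_mem (K.mul_mem (K.mul_mem (K.mul_mem (K.mul_mem hx hy) (K.inv_mem hx))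
      (K.inv_mem hy)) hz) (K.inv_mem (K.mul_mem (K.mul_mem (K.mul_mem hx hy) (K.inv_mem hx))
      (K.inv_mem hy)))) (K.inv_mem hz)
  rw [comm_comm, hx', hy', hz'] at h2
  change T L (f (e (0, i))) (f (e (1, j))) (f (e (2, k))) ≠ 0 at h
  generalize T L (f (e (0, i))) (f (e (1, j))) (f (e (2, k))) = t at h h2
  apply hK
  have h3 := K.pow_mem h2 (t⁻¹).val
  rw [zc_pow, ZMod.natCast_zmod_val, inv_mul_cancel₀ h] at h3
  exact h3

instance {L : Tri p d} : Finite (Grp L) := by
  have : Finite ((Fin d → ZMod p) →ₗ[ZMod p] ZMod p) := Module.finite_of_finite (ZMod p)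
  exact Finite.of_equiv _ (equivProd (L := L)).symm

theorem isPGroup (L : Tri p d) : IsPGroup p (Grp L) := by
  have h1 : Nat.card (Grp L) = p ^ (d + (d + (d + 1))) := by
    have : Finite ((Fin d → ZMod p) →ₗ[ZMod p] ZMod p) := Module.finite_of_finite (ZMod p)
    have h2 : Nat.card ((Fin d → ZMod p) →ₗ[ZMod p] ZMod p) = p ^ d := by
      rw [Module.natCard_eq_pow_finrank (K := ZMod p), Nat.card_zmod]
      congr 1
      have := Subspace.dual_finrank_eq (K := ZMod p) (V := Fin d → ZMod p)
      rw [Module.finrank_fin_fun] at this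
      exact this
    rw [Nat.card_congr (equivProd (L := L)), Nat.card_prod, Nat.card_prod, Nat.card_prod, h2,
      Nat.card_fun, Nat.card_zmod, Nat.card_fin, pow_add, pow_add, pow_add, pow_one]
  exact IsPGroup.of_card h1

end Pool.Agent.H34R3.Orb
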