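import Pool.Agent.H34R3.OrbCount

set_option autoImplicit false

/-!
A group with an action on a digraph of bounded out-degree, with few orbits: the local symmetry
argument.
-/

namespace Pool.Agent.H34R3.Orb

open Module Grp

section
variable {G W : Type} [Group G] (X : Digraph W) (φ : G →* Equiv.Perm W) (z : G)

/-- one step of the relation generated by the arcs between points moved by `z`, and by `z` -/
def Step (u v : W) : Prop :=
  (φ z u ≠ u ∧ φ z v ≠ v ∧ X.Adj u v) ∨ v = φ z u

/-- the equivalence relation -/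
def Rel (u v : W) : Prop := Relation.EqvGen (Step X φ z) u v

variable {X φ z}

theorem Rel.refl (u : W) : Rel X φ z u u := Relation.EqvGen.refl u
theorem Rel.symm {u v : W} (h : Rel X φ z u v) : Rel X φ z v u := Relation.EqvGen.symm _ _ h
theorem Rel.trans {u v w : W} (h : Rel X φ z u v) (h' : Rel X φ z v w) : Rel X φ z u w :=
  Relation.EqvGen.trans _ _ _ h h'

theorem moved_smul (hz : ∀ g, g * z = z * g) (g : G) (u : W) (h : φ z u ≠ u) :
    φ z (φ g u) ≠ φ g u := by
  rw [← Equiv.Perm.mul_apply, ← map_mul, ← hz, map_mul, Equiv.Perm.mul_apply]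
  exact fun h' => h ((φ g).injective h')

theorem Rel.smul (hz : ∀ g, g * z = z * g) (haut : ∀ g x y, X.Adj (φ g x) (φ g y) ↔ X.Adj x y)
    (g : G) {u v : W} (h : Rel X φ z u v) : Rel X φ z (φ g u) (φ g v) := by
  unfold Rel at h
  induction h with
  | rel x y h =>
    apply Relation.EqvGen.rel
    rcases h with ⟨h1, h2, h3⟩ | h
    · exact Or.inl ⟨moved_smul hz g x h1, moved_smul hz g y h2, (haut g x y).2 h3⟩
    · right
      rw [h, ← Equiv.Perm.mul_apply, ← Equiv.Perm.mul_apply, ← map_mul, ← map_mul, hz]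
  | refl x => exact Rel.refl _
  | symm x y _ ih => exact ih.symm
  | trans x y z _ _ ih1 ih2 => exact ih1.trans ih2

theorem Rel.moved (hz : ∀ g, g * z = z * g) {u v : W} (h : Rel X φ z u v) :
    φ z u ≠ u ↔ φ z v ≠ v := by
  unfold Rel at h
  induction h with
  | rel x y h =>
    rcases h with ⟨h1, h2, h3⟩ | h
    · exact ⟨fun _ => h2, fun _ => h1⟩
    · rw [h]
      constructor
      · exact fun h1 => moved_smul hz z x h1
      · intro h1 h2
        rw [h2] at h1
        exact h1 h2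
  | refl x => exact Iff.rfl
  | symm x y _ ih => exact ih.symm
  | trans x y z _ _ ih1 ih2 => exact ih1.trans ih2

theorem Rel.zz (u : W) : Rel X φ z u (φ z u) := Relation.EqvGen.rel _ _ (Or.inr rfl)

theorem Rel.arc {u v : W} (h1 : φ z u ≠ u) (h2 : φ z v ≠ v) (h3 : X.Adj u v) : Rel X φ z u v :=
  Relation.EqvGen.rel _ _ (Or.inl ⟨h1, h2, h3⟩)

theorem Rel.zinv (hz : ∀ g, g * z = z * g) (u : W) : Rel X φ z u (φ z⁻¹ u) := by
  have h := (Rel.zz (X := X) (φ := φ) (z := z) (φ z⁻¹ u)).symm
  rw [← Equiv.Perm.mul_apply, ← map_mul, mul_inv_cancel, map_one, Equiv.Perm.one_apply] at h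
  exact h

open Classical in
/-- the local symmetry: `z` on the class of `y`, the identity elsewhere -/
noncomputable def loc (hz : ∀ g, g * z = z * g) (y : W) : Equiv.Perm W where
  toFun v := if Rel X φ z y v then φ z v else v
  invFun v := if Rel X φ z y v then φ z⁻¹ v else v
  left_inv v := by
    by_cases h : Rel X φ z y v
    · simp only [h, if_true]
      rw [if_pos (h.trans (Rel.zz v)), ← Equiv.Perm.mul_apply, ← map_mul, inv_mul_cancel, map_one,
        Equiv.Perm.one_apply]
    · simp only [h, if_false]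
  right_inv v := by
    by_cases h : Rel X φ z y v
    · simp only [h, if_true]
      rw [if_pos (h.trans (Rel.zinv hz v)), ← Equiv.Perm.mul_apply, ← map_mul, mul_inv_cancel,
        map_one, Equiv.Perm.one_apply]
    · simp only [h, if_false]

theorem loc_pos (hz : ∀ g, g * z = z * g) (y v : W) (h : Rel X φ z y v) :
    loc (X := X) (φ := φ) hz y v = φ z v := by
  simp [loc, h]

theorem loc_neg (hz : ∀ g, g * z = z * g) (y v : W) (h : ¬ Rel X φ z y v) :
    loc (X := X) (φ := φ) hz y v = v := by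
  simp [loc, h]

theorem loc_aut (hz : ∀ g, g * z = z * g) (haut : ∀ g x y, X.Adj (φ g x) (φ g y) ↔ X.Adj x y)
    (y : W) (hy : φ z y ≠ y) (u v : W) :
    X.Adj (loc (X := X) (φ := φ) hz y u) (loc (X := X) (φ := φ) hz y v) ↔ X.Adj u v := by
  by_cases hu : Rel X φ z y u
  · by_cases hv : Rel X φ z y v
    · rw [loc_pos hz y u hu, loc_pos hz y v hv, haut]
    · rw [loc_pos hz y u hu, loc_neg hz y v hv]
      by_cases hm : φ z v = v
      · conv_lhs => rw [← hm]
        rw [haut]
      · constructor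
        · intro h
          exact absurd (hu.trans ((Rel.zz u).trans
            (Rel.arc (((hu.trans (Rel.zz u)).moved hz).1 hy) hm h))) hv
        · intro h
          exact absurd (hu.trans (Rel.arc ((hu.moved hz).1 hy) hm h)) hv
  · by_cases hv : Rel X φ z y v
    · rw [loc_neg hz y u hu, loc_pos hz y v hv]
      by_cases hm : φ z u = u
      · conv_lhs => rw [← hm]
        rw [haut]
      · constructor
        · intro h
          exact absurd (hv.trans ((Rel.zz v).trans
            (Rel.arc hm (((hv.trans (Rel.zz v)).moved hz).1 hy) h).symm)) hu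
        · intro h
          exact absurd (hv.trans (Rel.arc hm ((hv.moved hz).1 hy) h).symm) hu
    · rw [loc_neg hz y u hu, loc_neg hz y v hv]

/-- `w` acts as `z ^ f`, with `f` constant on classes -/
def IsZ (X : Digraph W) (φ : G →* Equiv.Perm W) (z : G) (w : G) (f : W → ℤ) : Prop :=
  (∀ v, φ w v = φ (z ^ f v) v) ∧ ∀ u v, Rel X φ z u v → f u = f v

theorem Rel.zpow (hz : ∀ g, g * z = z * g) (u : W) (n : ℤ) : Rel X φ z u (φ (z ^ n) u) := by
  induction n using Int.induction_on with
  | zero => simpa using Rel.refl u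
  | succ n ih =>
    have h := ih.trans (Rel.zz _)
    rw [← Equiv.Perm.mul_apply, ← map_mul] at h
    rwa [zpow_add, zpow_one, ← hz] at *
  | pred n ih =>
    have h := ih.trans (Rel.zinv hz _)
    rw [← Equiv.Perm.mul_apply, ← map_mul] at h
    rw [zpow_sub, zpow_one]
    have h2 : z ^ (-(n:ℤ)) * z⁻¹ = z⁻¹ * z ^ (-(n:ℤ)) := by
      rw [← zpow_neg_one, ← zpow_add, ← zpow_add, add_comm]
    rwa [h2]

theorem IsZ.cm (hz : ∀ g, g * z = z * g) (haut : ∀ g x y, X.Adj (φ g x) (φ g y) ↔ X.Adj x y)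
    {w : G} {f : W → ℤ} (h : IsZ X φ z w f) (x : G) :
    IsZ X φ z (Grp.cm w x) (fun v => f v - f (φ x⁻¹ v)) := by
  have hinv : ∀ v, φ w⁻¹ v = φ (z ^ (-f v)) v := by
    intro v
    have h1 : φ w (φ (z ^ (-f v)) v) = v := by
      rw [h.1, ← h.2 _ _ (Rel.zpow hz v (-f v)), ← Equiv.Perm.mul_apply, ← map_mul, ← zpow_add]
      simp
    conv_lhs => rw [← h1]
    rw [← Equiv.Perm.mul_apply, ← map_mul, inv_mul_cancel, map_one, Equiv.Perm.one_apply]
  have hzx : ∀ (n : ℤ) (g : G), g * z ^ n = z ^ n * g := by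
    intro n g
    exact ((Commute.zpow_right (show Commute g z from hz g) n)).eq
  constructor
  · intro v
    have h1 : φ (Grp.cm w x) v = φ w (φ x (φ w⁻¹ (φ x⁻¹ v))) := by
      simp only [Grp.cm, map_mul, Equiv.Perm.mul_apply]
    rw [h1, hinv]
    have h2 : φ x (φ (z ^ (-f (φ x⁻¹ v))) (φ x⁻¹ v)) = φ (z ^ (-f (φ x⁻¹ v))) v := by
      rw [← Equiv.Perm.mul_apply, ← map_mul, hzx, map_mul, Equiv.Perm.mul_apply,
        ← Equiv.Perm.mul_apply (φ x), ← map_mul, mul_inv_cancel, map_one, Equiv.Perm.one_apply]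
    rw [h2, h.1, ← h.2 _ _ (Rel.zpow hz v _), ← Equiv.Perm.mul_apply, ← map_mul, ← zpow_add]
    rfl
  · intro u v huv
    dsimp only
    rw [h.2 u v huv, h.2 _ _ (huv.smul hz haut x⁻¹)]

theorem class_invariant [Finite G] (hz : ∀ g, g * z = z * g)
    (haut : ∀ g x y, X.Adj (φ g x) (φ g y) ↔ X.Adj x y)
    (hfull : ∀ σ : Equiv.Perm W, (∀ x y, (X.Adj (σ x) (σ y) ↔ X.Adj x y)) → σ ∈ φ.range)
    (hE : ∀ w x : G, Grp.cm (Grp.cm (Grp.cm w x) x) x = 1)
    (h2 : ∀ x : G, (2 : ℕ).Coprime (orderOf x)) (h3 : ∀ x : G, (3 : ℕ).Coprime (orderOf x))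
    (y : W) (hy : φ z y ≠ y) (g : G) : Rel X φ z y (φ g y) := by
  classical
  by_contra hg
  obtain ⟨w, hw⟩ := hfull (loc (X := X) (φ := φ) hz y) (loc_aut hz haut y hy)
  set x : G := g⁻¹ with hx
  have hf : IsZ X φ z w (fun v => if Rel X φ z y v then 1 else 0) := by
    constructor
    · intro v
      dsimp only
      rw [hw]
      by_cases h : Rel X φ z y v
      · rw [loc_pos hz y v h, if_pos h, zpow_one]
      · rw [loc_neg hz y v h, if_neg h, zpow_zero, map_one, Equiv.Perm.one_apply]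
    · intro u v huv
      dsimp only
      by_cases h : Rel X φ z y u
      · rw [if_pos h, if_pos (h.trans huv)]
      · rw [if_neg h, if_neg (fun h' => h (h'.trans huv.symm))]
  have h := ((hf.cm hz haut x).cm hz haut x).cm hz haut x
  rw [hE] at h
  have h4 := h.1 y
  rw [map_one, Equiv.Perm.one_apply] at h4
  have hpow : ∀ n : ℕ, ∀ k : G, Rel X φ z y (φ k y) → Rel X φ z y (φ (k ^ n) y) := by
    intro n k hk
    induction n with
    | zero => simpa using Rel.refl y
    | succ n ih =>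
      rw [pow_succ', map_mul, Equiv.Perm.mul_apply]
      exact hk.trans (ih.smul hz haut k)
  have e2 : ¬ Rel X φ z y (φ (g ^ 2) y) := by
    intro h5
    obtain ⟨m, hm⟩ := exists_pow_eq_self_of_coprime (h2 g)
    have := hpow m _ h5
    rw [hm] at this
    exact hg this
  have e3 : ¬ Rel X φ z y (φ (g ^ 3) y) := by
    intro h5
    obtain ⟨m, hm⟩ := exists_pow_eq_self_of_coprime (h3 g)
    have := hpow m _ h5
    rw [hm] at this
    exact hg this
  have e1 : ¬ Rel X φ z y (φ (x⁻¹) y) := by rw [hx, inv_inv]; exact hg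
  have e2' : ¬ Rel X φ z y (φ (x⁻¹) (φ (x⁻¹) y)) := by
    rw [hx, inv_inv, ← Equiv.Perm.mul_apply, ← map_mul, ← pow_two]; exact e2
  have e3' : ¬ Rel X φ z y (φ (x⁻¹) (φ (x⁻¹) (φ (x⁻¹) y))) := by
    rw [hx, inv_inv, ← Equiv.Perm.mul_apply, ← map_mul, ← Equiv.Perm.mul_apply, ← map_mul,
      ← pow_two, ← pow_succ]; exact e3
  simp only [e1, e2', e3', Rel.refl y, if_true, if_false] at h4
  norm_num at h4
  exact hy h4.symm

end

end Pool.Agent.H34R3.Orb
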