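import Mathlib

set_option autoImplicit false

/-!
A finite group of nilpotency class three attached to a trilinear form.
-/

namespace Pool.Agent.H34R3.Orb

open Module

variable {F V : Type} [Field F] [AddCommGroup V] [Module F V]

/-- the underlying set of the group attached to the trilinear form `L` -/
@[ext] structure Grp (L : V →ₗ[F] V →ₗ[F] V →ₗ[F] F) : Type where
  v : V
  a : V →ₗ[F] F
  b : V →ₗ[F] F
  c : F

variable {L : V →ₗ[F] V →ₗ[F] V →ₗ[F] F}

namespace Grp

instance : Mul (Grp L) :=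
  ⟨fun x y => ⟨x.v + y.v, x.a + y.a + ((L.flip x.v).flip y.v), x.b + y.b + L x.v y.v,
    x.c + y.c + y.a x.v + x.b y.v⟩⟩

instance : One (Grp L) := ⟨⟨0, 0, 0, 0⟩⟩

instance : Inv (Grp L) :=
  ⟨fun x => ⟨-x.v, -x.a + ((L.flip x.v).flip x.v), -x.b + L x.v x.v,
    -x.c + x.a x.v + x.b x.v - L x.v x.v x.v⟩⟩

@[simp] theorem mul_v (x y : Grp L) : (x * y).v = x.v + y.v := rfl
@[simp] theorem mul_a (x y : Grp L) :
    (x * y).a = x.a + y.a + ((L.flip x.v).flip y.v) := rfl
@[simp] theorem mul_b (x y : Grp L) : (x * y).b = x.b + y.b + L x.v y.v := rfl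
@[simp] theorem mul_c (x y : Grp L) : (x * y).c = x.c + y.c + y.a x.v + x.b y.v := rfl
@[simp] theorem one_v : (1 : Grp L).v = 0 := rfl
@[simp] theorem one_a : (1 : Grp L).a = 0 := rfl
@[simp] theorem one_b : (1 : Grp L).b = 0 := rfl
@[simp] theorem one_c : (1 : Grp L).c = 0 := rfl
@[simp] theorem inv_v (x : Grp L) : (x⁻¹).v = -x.v := rfl
@[simp] theorem inv_a (x : Grp L) : (x⁻¹).a = -x.a + ((L.flip x.v).flip x.v) := rfl
@[simp] theorem inv_b (x : Grp L) : (x⁻¹).b = -x.b + L x.v x.v := rfl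
@[simp] theorem inv_c (x : Grp L) :
    (x⁻¹).c = -x.c + x.a x.v + x.b x.v - L x.v x.v x.v := rfl

instance : Group (Grp L) :=
  Group.ofLeftAxioms
    (by
      intro x y z
      ext1
      · simp [add_assoc]
      · ext t
        simp
        ring
      · ext t
        simp
        ring
      · simp
        ring)
    (by
      intro x
      ext1
      · simp
      · ext t; simp
      · ext t; simp
      · simp)
    (by
      intro x
      ext1
      · simp
      · ext t; simp
      · ext t; simp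
      · simp
        ring)

/-- the equivalence with a product -/
def equivProd : Grp L ≃ V × (V →ₗ[F] F) × (V →ₗ[F] F) × F where
  toFun x := (x.v, x.a, x.b, x.c)
  invFun x := ⟨x.1, x.2.1, x.2.2.1, x.2.2.2⟩
  left_inv _ := rfl
  right_inv _ := rfl

/-- the projection to `V` -/
def pr (L : V →ₗ[F] V →ₗ[F] V →ₗ[F] F) : Grp L →* Multiplicative V where
  toFun x := Multiplicative.ofAdd x.v
  map_one' := rfl
  map_mul' _ _ := rfl

/-- central elements -/
def zc (L : V →ₗ[F] V →ₗ[F] V →ₗ[F] F) (t : F) : Grp L := ⟨0, 0, 0, t⟩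

@[simp] theorem zc_v (t : F) : (zc L t).v = 0 := rfl
@[simp] theorem zc_a (t : F) : (zc L t).a = 0 := rfl
@[simp] theorem zc_b (t : F) : (zc L t).b = 0 := rfl
@[simp] theorem zc_c (t : F) : (zc L t).c = t := rfl

theorem zc_comm (t : F) (g : Grp L) : g * zc L t = zc L t * g := by
  ext1
  · simp
  · ext t; simp
  · ext t; simp
  · simp [add_comm]

theorem zc_pow (t : F) (n : ℕ) : (zc L t) ^ n = zc L (n * t) := by
  induction n with
  | zero =>
    rw [pow_zero]
    ext1 <;> simp
  | succ n ih =>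
    rw [pow_succ, ih]
    ext1
    · simp
    · ext t; simp
    · ext t; simp
    · simp; ring

/-- the commutator-like expression `w * (x * w⁻¹ * x⁻¹)` -/
def cm {G : Type} [Group G] (w x : G) : G := w * (x * w⁻¹ * x⁻¹)

theorem cm_v (w x : Grp L) : (cm w x).v = 0 := by
  simp [cm]

theorem cm_ab (w x : Grp L) (h : w.v = 0) : (cm w x).v = 0 ∧ (cm w x).a = 0 ∧ (cm w x).b = 0 := by
  refine ⟨cm_v w x, ?_, ?_⟩
  · ext t
    simp [cm, h]
    ring
  · ext t
    simp [cm, h]
    ring

theorem cm_c (w x : Grp L) (h : w.v = 0) (ha : w.a = 0) (hb : w.b = 0) : cm w x = 1 := by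
  ext1
  · exact cm_v w x
  · exact (cm_ab w x h).2.1
  · exact (cm_ab w x h).2.2
  · simp [cm, h, ha, hb]
    ring

theorem engel (w x : Grp L) : cm (cm (cm w x) x) x = 1 := by
  obtain ⟨h1, h2, h3⟩ := cm_ab (cm w x) x (cm_v w x)
  exact cm_c _ _ h1 h2 h3

/-- the trilinear commutator form -/
def T (L : V →ₗ[F] V →ₗ[F] V →ₗ[F] F) (x y z : V) : F :=
  L x y z - L y x z - L z x y + L z y x

/-- the commutator -/
def cmt {G : Type} [Group G] (x y : G) : G := x * y * x⁻¹ * y⁻¹

theorem comm_comm (x y z : Grp L) : cmt (cmt x y) z = zc L (T L x.v y.v z.v) := by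
  have h1 : (cmt x y).v = 0 := by
    simp [cmt]
  have h2 : (cmt x y).a = ((L.flip x.v).flip y.v) - ((L.flip y.v).flip x.v) := by
    ext t
    simp [cmt]
    ring
  have h3 : (cmt x y).b = L x.v y.v - L y.v x.v := by
    ext t
    simp [cmt]
    ring
  generalize cmt x y = w at h1 h2 h3
  have key : w * z = zc L (T L x.v y.v z.v) * (z * w) := by
    ext1
    · simp [h1]
    · ext t; simp [h1]; ring
    · ext t; simp [h1]; ring
    · simp only [mul_c, zc_c, zc_b, mul_v, h1, h2, h3, mul_a, T]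
      simp
      ring
  rw [cmt, key]
  group

end Grp

end Pool.Agent.H34R3.Orb
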