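import Pool.Agent.H34R3.OrbGraph

set_option autoImplicit false

/-!
Generation of the group by point stabilisers and few elements; the lower bound on the number of
orbits.
-/

namespace Pool.Agent.H34R3.Orb

open Module Grp

section
variable {G W : Type} [Group G] (X : Digraph W) (φ : G →* Equiv.Perm W) (z : G)

/-- the orbit relation -/
def orbS (φ : G →* Equiv.Perm W) : Setoid W where
  r u v := ∃ g, φ g u = v
  iseqv := ⟨fun u => ⟨1, by simp⟩, by
      rintro u v ⟨g, rfl⟩
      exact ⟨g⁻¹, by rw [← Equiv.Perm.mul_apply, ← map_mul]; simp⟩, by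
      rintro u v w ⟨g, rfl⟩ ⟨h, rfl⟩
      exact ⟨h * g, by rw [map_mul, Equiv.Perm.mul_apply]⟩⟩

/-- a representative of the orbit -/
noncomputable def rep (u : W) : W := Quotient.out (Quotient.mk (orbS φ) u)

theorem rep_spec (u : W) : ∃ g, φ g (rep φ u) = u := by
  have h : (orbS φ).r (rep φ u) u := Quotient.exact (Quotient.out_eq (Quotient.mk (orbS φ) u))
  exact h

/-- an element carrying the representative to the point -/
noncomputable def car (u : W) : G := (rep_spec φ u).choose

theorem car_spec (u : W) : φ (car φ u) (rep φ u) = u := (rep_spec φ u).choose_spec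

theorem car_inv (u : W) : φ (car φ u)⁻¹ u = rep φ u := by
  apply (φ (car φ u)).injective
  rw [car_spec, ← Equiv.Perm.mul_apply, ← map_mul]
  simp

theorem rep_smul (g : G) (u : W) : rep φ (φ g u) = rep φ u := by
  unfold rep
  congr 1
  exact Quotient.sound (s := orbS φ) (show ∃ h, φ h (φ g u) = u from
    ⟨g⁻¹, by rw [← Equiv.Perm.mul_apply, ← map_mul]; simp⟩)

theorem rep_rep (u : W) : rep φ (rep φ u) = rep φ u := by
  conv_lhs => rw [← rep_smul φ (car φ u), car_spec]

variable {X φ z}

theorem generation (hz : ∀ g, g * z = z * g)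
    (haut : ∀ g x y, X.Adj (φ g x) (φ g y) ↔ X.Adj x y)
    (y : W) (hy : φ z y ≠ y) (hinv : ∀ v, Rel X φ z y v → ∀ g : G, Rel X φ z y (φ g v))
    (H : Subgroup G) (hzH : z ∈ H)
    (hstab : ∀ u, Rel X φ z y (rep φ u) → ∀ g, φ g (rep φ u) = rep φ u → g ∈ H)
    (harc : ∀ u w, Rel X φ z y (rep φ u) → X.Adj (rep φ u) w → car φ w ∈ H) : H = ⊤ := by
  have key : ∀ u v, Rel X φ z u v → Rel X φ z y u →
      ((∃ h ∈ H, φ h (rep φ u) = u) ↔ (∃ h ∈ H, φ h (rep φ v) = v)) := by
    intro u v huv
    unfold Rel at huv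
    induction huv with
    | rel u v h =>
      intro hu
      have hru : Rel X φ z y (rep φ u) := by
        have h1 := hinv u hu (car φ u)⁻¹
        have h2 : φ (car φ u)⁻¹ u = rep φ u := car_inv φ u
        rwa [h2] at h1
      have hinvv : ∀ (g : G) (w : W), φ g⁻¹ (φ g w) = w := by
        intro g w
        rw [← Equiv.Perm.mul_apply, ← map_mul]; simp
      have hinvv' : ∀ (g : G) (w : W), φ g (φ g⁻¹ w) = w := by
        intro g w
        rw [← Equiv.Perm.mul_apply, ← map_mul]; simp
      rcases h with ⟨h1, h2, h3⟩ | h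
      · have hv : Rel X φ z y v := hu.trans (Rel.arc h1 h2 h3)
        have hrv : Rel X φ z y (rep φ v) := by
          have h1 := hinv v hv (car φ v)⁻¹
          have h2 : φ (car φ v)⁻¹ v = rep φ v := car_inv φ v
          rwa [h2] at h1
        constructor
        · rintro ⟨h, hH, hh⟩
          have h4 : X.Adj (rep φ u) (φ h⁻¹ v) := by
            rw [← haut h, hh, hinvv']
            exact h3
          have h5 := harc u _ hru h4
          refine ⟨h * car φ (φ h⁻¹ v), H.mul_mem hH h5, ?_⟩
          rw [map_mul, Equiv.Perm.mul_apply]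
          conv_lhs => rw [← rep_smul φ h⁻¹ v, car_spec]
          rw [hinvv']
        · rintro ⟨h, hH, hh⟩
          set g := car φ u with hg
          have hg' : φ g (rep φ u) = u := car_spec φ u
          have h4 : X.Adj (rep φ u) (φ g⁻¹ v) := by
            rw [← haut g, hg', hinvv']
            exact h3
          have h5 := harc u _ hru h4
          set w := φ g⁻¹ v with hw
          have h6 : φ (car φ w) (rep φ v) = w := by
            have := car_spec φ w
            rwa [hw, rep_smul] at this
          have h7 : φ (h⁻¹ * (g * car φ w)) (rep φ v) = rep φ v := by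
            rw [map_mul, map_mul, Equiv.Perm.mul_apply, Equiv.Perm.mul_apply, h6, hw, hinvv']
            conv_lhs => rw [← hh]
            rw [hinvv]
          have h8 := hstab v hrv _ h7
          refine ⟨g, ?_, hg'⟩
          have h9 : g = h * (h⁻¹ * (g * car φ w)) * (car φ w)⁻¹ := by group
          rw [h9]
          exact H.mul_mem (H.mul_mem hH h8) (H.inv_mem h5)
      · constructor
        · rintro ⟨h', hH, hh⟩
          refine ⟨z * h', H.mul_mem hzH hH, ?_⟩
          rw [h, rep_smul, map_mul, Equiv.Perm.mul_apply, hh]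
        · rintro ⟨h', hH, hh⟩
          refine ⟨z⁻¹ * h', H.mul_mem (H.inv_mem hzH) hH, ?_⟩
          rw [h, rep_smul] at hh
          rw [map_mul, Equiv.Perm.mul_apply, hh, hinvv]
    | refl x => exact fun _ => Iff.rfl
    | symm x y _ ih =>
      intro hy'
      rename_i hxy
      exact (ih (hy'.trans (Rel.symm hxy))).symm
    | trans x y z' hxy _ ih1 ih2 =>
      intro hx
      exact (ih1 hx).trans (ih2 (hx.trans hxy))
  -- start at the representative of `y`
  have hry : Rel X φ z y (rep φ y) := by
    have h1 := hinv y (Rel.refl y) (car φ y)⁻¹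
    have h2 : φ (car φ y)⁻¹ y = rep φ y := car_inv φ y
    rwa [h2] at h1
  have h0 : ∃ h ∈ H, φ h (rep φ (rep φ y)) = rep φ y := ⟨1, H.one_mem, by rw [rep_rep]; simp⟩
  rw [eq_top_iff]
  intro g _
  have h1 : Rel X φ z y (φ g (rep φ y)) := hinv _ hry g
  obtain ⟨h, hH, hh⟩ := (key _ _ (hry.symm.trans h1) hry).1 h0
  rw [rep_smul, rep_rep] at hh
  have h2 : φ (h⁻¹ * g) (rep φ y) = rep φ y := by
    rw [map_mul, Equiv.Perm.mul_apply, ← hh, ← Equiv.Perm.mul_apply, ← map_mul]
    simp
  have h3 := hstab y hry _ h2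
  have h4 : g = h * (h⁻¹ * g) := by group
  rw [h4]
  exact H.mul_mem hH h3

end

end Pool.Agent.H34R3.Orb
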