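import Pool.Agent.H572R4.Stmts

set_option autoImplicit false

/-! H572-PI, task F1 (helper34): the formulas are invariant under order isomorphisms. -/

set_option maxHeartbeats 4000000

namespace Pool.Agent.H572R4

namespace F1Aux

variable {L M : Type} [Lattice L] [BoundedOrder L] [Lattice M] [BoundedOrder M]

theorem cpl_map (Φ : L ≃o M) {c : L} (h : Cpl c) : Cpl (Φ c) := by
  obtain ⟨d, h1, h2⟩ := h
  exact ⟨Φ d, by rw [← Φ.map_inf, h1, Φ.map_bot], by rw [← Φ.map_sup, h2, Φ.map_top]⟩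

theorem cpl_iff (Φ : L ≃o M) (c : L) : Cpl (Φ c) ↔ Cpl c := by
  refine ⟨fun h => ?_, cpl_map Φ⟩
  have := cpl_map Φ.symm h
  rwa [Φ.symm_apply_apply] at this

theorem good_map (Φ : L ≃o M) {c V : L} (h : Good c V) : Good (Φ c) (Φ V) := by
  obtain ⟨d, hd, h1, h2⟩ := h
  refine ⟨Φ d, cpl_map Φ hd, by rw [← Φ.map_inf, h1, Φ.map_bot], ?_⟩
  rw [← Φ.map_inf, ← Φ.map_sup]
  exact congrArg Φ h2

theorem good_iff (Φ : L ≃o M) (c V : L) : Good (Φ c) (Φ V) ↔ Good c V := by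
  refine ⟨fun h => ?_, good_map Φ⟩
  have := good_map Φ.symm h
  rwa [Φ.symm_apply_apply, Φ.symm_apply_apply] at this

theorem nn_map (Φ : L ≃o M) {Q a : L} {n : ℕ} (h : NN Q a n) : NN (Φ Q) (Φ a) n := by
  obtain ⟨D, h1, h2, h3, h4⟩ := h
  refine ⟨D.map Φ, by rw [List.length_map, h1], ?_, ?_, ?_⟩
  · intro d hd
    obtain ⟨x, hx, rfl⟩ := List.mem_map.1 hd
    exact Φ.le_iff_le.2 (h2 x hx)
  · rw [List.pairwise_map]
    refine h3.imp ?_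
    intro x y hxy
    rw [← Φ.map_inf]
    exact Φ.le_iff_le.2 hxy
  · intro d hd c hc hac hle
    obtain ⟨x, hx, rfl⟩ := List.mem_map.1 hd
    have e : Φ (Φ.symm c) = c := Φ.apply_symm_apply c
    refine h4 x hx (Φ.symm c) (cpl_map Φ.symm hc) ?_ ?_
    · rw [← Φ.le_iff_le, e]
      exact hac
    · rw [← Φ.le_iff_le, Φ.map_inf, e]
      exact hle

theorem nn_iff (Φ : L ≃o M) (Q a : L) (n : ℕ) : NN (Φ Q) (Φ a) n ↔ NN Q a n := by
  refine ⟨fun h => ?_, nn_map Φ⟩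
  have := nn_map Φ.symm h
  rwa [Φ.symm_apply_apply, Φ.symm_apply_apply] at this

theorem mark_map (Φ : L ≃o M) {P Q c : L} {n : ℕ} (h : Mark P Q n c) :
    Mark (Φ P) (Φ Q) n (Φ c) := by
  intro a ha hle
  have e : Φ (Φ.symm a) = a := Φ.apply_symm_apply a
  have ha' : IsAtom (Φ.symm a) := (Φ.symm.isAtom_iff a).2 ha
  have hle' : Φ.symm a ≤ P ⊓ c := by
    rw [← Φ.le_iff_le, e, Φ.map_inf]
    exact hle
  obtain ⟨h1, h2⟩ := h _ ha' hle'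
  rw [← nn_iff Φ, e] at h1 h2
  exact ⟨h1, h2⟩

theorem mark_iff (Φ : L ≃o M) (P Q : L) (n : ℕ) (c : L) :
    Mark (Φ P) (Φ Q) n (Φ c) ↔ Mark P Q n c := by
  refine ⟨fun h => ?_, mark_map Φ⟩
  have := mark_map Φ.symm h
  rwa [Φ.symm_apply_apply, Φ.symm_apply_apply, Φ.symm_apply_apply] at this

theorem inf_bot_iff (Φ : L ≃o M) (x y : L) : Φ x ⊓ Φ y = ⊥ ↔ x ⊓ y = ⊥ := by
  rw [← Φ.map_inf, ← Φ.map_bot, Φ.injective.eq_iff]

theorem sup_eq_iff (Φ : L ≃o M) (x y c : L) : Φ x ⊔ Φ y = Φ c ↔ x ⊔ y = c := by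
  rw [← Φ.map_sup, Φ.injective.eq_iff]

theorem tt_iff (Φ : L ≃o M) (V : ℕ → L) (W : ℕ → M) (k : ℕ) : (∀ i ≤ k, W i = Φ (V i)) →
    ∀ c, TT W k (Φ c) ↔ TT V k c := by
  induction k with
  | zero =>
    intro h c
    show ¬ Good (Φ c) (W 0) ↔ ¬ Good c (V 0)
    rw [h 0 le_rfl, good_iff]
  | succ k ih =>
    intro h c
    have ih' := ih fun i hi => h i (by omega)
    have hk := h (k + 1) le_rfl
    show ((Even k → ∃ c', Cpl c' ∧ c' ≤ Φ c ∧ Good c' (W (k + 1)) ∧ TT W k c') ∧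
      (¬ Even k → ∀ c' c'', Cpl c' → Cpl c'' → c' ⊓ c'' = ⊥ → c' ⊔ c'' = Φ c →
        Good c' (W (k + 1)) → TT W k c'')) ↔
      ((Even k → ∃ c', Cpl c' ∧ c' ≤ c ∧ Good c' (V (k + 1)) ∧ TT V k c') ∧
      (¬ Even k → ∀ c' c'', Cpl c' → Cpl c'' → c' ⊓ c'' = ⊥ → c' ⊔ c'' = c →
        Good c' (V (k + 1)) → TT V k c''))
    rw [hk, Φ.surjective.exists, Φ.surjective.forall]
    simp only [Φ.surjective.forall, cpl_iff, Φ.le_iff_le, good_iff, ih', inf_bot_iff, sup_eq_iff]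

end F1Aux

theorem taskF1 : TaskF1 := by
  intro L M _ _ _ _ Φ
  exact ⟨F1Aux.cpl_iff Φ, fun P Q n c => F1Aux.mark_iff Φ P Q n c,
    fun V W k h c => F1Aux.tt_iff Φ V W k h c⟩

end Pool.Agent.H572R4
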